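import Pool.Agent.Q248.PI.El

/-!
# Every set of positive integers containing `1` is a product intersection set, for every
infinite index set
-/

namespace Pool.Agent.Results.MP_57f2ab_co.AllSets

open Pool.Agent.Q248.PI

universe u v

/-- There is one countable commutative semigroup `S` such that for every infinite index set `Q`
the product intersection sets of the families `(A_q)_{q ∈ Q}` of subsets of `S` with infinitely
many different members are exactly the sets of positive integers that contain `1`. -/
theorem result : ∃ (S : Type u) (_ : CommSemigroup S), Countable S ∧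
    ∀ (Q : Type v) [Infinite Q], HQ Q S = {X : Set ℕ | 1 ∈ X ∧ ∀ h ∈ X, 1 ≤ h} := by
  refine ⟨El.{u}, inferInstance, inferInstance, fun Q _ => ?_⟩
  ext X
  rw [Set.mem_ofPred_eq]
  constructor
  · rintro ⟨A, _, rfl⟩
    exact ⟨one_mem_interSet A, fun h hh => pos_of_mem_interSet hh⟩
  · rintro ⟨h1, hX⟩
    exact El.hQ_El Q h1 hX

end Pool.Agent.Results.MP_57f2ab_co.AllSets
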